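import Pool.Agent.Lib.MP_7f581e_Z.Bot.Main

/-!
Let `N ≤ M` be normal subgroups of a finite group `G`.  If the composition factors of `N` are in
the list `IsBottomFactor`, those of `M / N` are of prime order, of Lie type in characteristic `p`
(`OfLieType`, and the explicit clauses for linear, symplectic, unitary and orthogonal groups) or
alternating (`A_n` with `n ≥ 5`, `n ≥ p`, `n ≠ 6`), and `G / M` is a direct product of symmetric
groups and of a top group (or the trivial group), then `G` is a Galois group over `𝔽_p(X)`; it
occurs regularly over every field of characteristic `p`.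
-/

set_option autoImplicit false

universe u

namespace MP7Old.CompositionFactors

open MP7fR MP7fC MP7fE MP7Z

/-- **Main result.** -/
theorem result {p : ℕ} [Fact p.Prime] {G : Type} [Group G] [Finite G] (N M : Subgroup G)
    [N.Normal] [M.Normal] (hNM : N ≤ M) (hN : HasFactors (IsBottomFactor p) N)
    (hM : HasFactors (IsSimpleFactor p) (M ⧸ N.subgroupOf M)) (hT : IsTop p (G ⧸ M)) :
    Occurs G (RatFunc (ZMod p)) ∧ (∀ (K : Type u) [Field K] [CharP K p], OccursRegularly G K) ∧
      ∀ (K : Type u) [Field K] [CharP K p], IsHilbertian K → Occurs G K :=
  final_bot p G N M hNM hN hM hT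

end MP7Old.CompositionFactors
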