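import Pool.Agent.Lib.MP_7f581e_ntE.Final
import Pool.Agent.Lib.MP_7f581e_ntE.FreeCor
import Pool.Agent.Lib.MP_7f581e_ntE.HilbCongr
import Pool.Agent.Lib.MP_7f581e_ntE.MaxC

/-!
Over a countable Hilbertian field of characteristic `p`, in particular over `F_q(X)`, the Galois
group of the maximal pro-`C` extension is the free pro-`C` group of countable rank, where `C` is
the class of finite groups with composition factors in the list `IsFactor p k`.
-/

set_option autoImplicit false

universe u w

namespace MP7Old.FreeQuotient

open MP7fR MP7fC MP7fE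

/-- **Main result.** -/
theorem result {p : ℕ} [Fact p.Prime] {k : Type} [Field k] [Finite k] [CharP k p]
    {K : Type u} [Field K] [Algebra k K] [Countable K]
    (hK : IsHilbertian K ∨
      ∃ (k' : Type u) (_ : Field k'), Finite k' ∧ Nonempty (RatFunc k' ≃+* K)) :
    ∃ (N : Type u) (_ : Field N) (_ : Algebra K N),
      IsMaxC (IsFactor p k) K N ∧ FreeGal.{u, w} (IsFactor p k) K N := by
  have h : IsHilbertian K := by
    rcases hK with h | ⟨k', _, hfin, ⟨f⟩⟩
    · exact h
    · exact isHilbertian_congr f (isHilbertian_ratFunc k')
  exact ⟨maxC (IsFactor p k) K, inferInstance, inferInstance,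
    isMaxC_maxC (good_factor.{0} (p := p) (k := k)).congr
      (good_factor.{0} (p := p) (k := k)).simple,
    good_factor.isFreeProC h⟩

end MP7Old.FreeQuotient
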